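import Pool.Agent.Helper51.AJ.St
import Pool.Agent.Helper51.AJ.Basic

/-!
# Project AJ, module SPL: splitting the sets of the normal form
-/

set_option autoImplicit false

namespace Pool.Agent.Helper16.AJ

open Pool.Agent.Helper51.AJ

theorem hSPL (h1 : StCon) (h2 : StAtt) : StSpl := by
  intro V _ B u v W hN i hns
  obtain ⟨x0, hx0, y0, hy0, hu, hv, heq, _⟩ := h2 V B u v W hN i
  have hne : x0 ≠ y0 := by
    intro h
    apply hns
    rw [heq h]
    exact Set.subsingleton_singleton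
  have hC := (h1 V B (W i) (hN.con i)).2.2
  have tu : ∀ S : Set V, x0 ∈ S → Tch B {u} S := fun S h => ⟨u, rfl, x0, h, (hu x0 hx0).2 rfl⟩
  have tv : ∀ S : Set V, y0 ∈ S → Tch B {v} S := fun S h => ⟨v, rfl, y0, h, (hv y0 hy0).2 rfl⟩
  have key : ∀ P Q : Set V, P ∪ Q = W i → Disjoint P Q → Con B P → ∀ z ∈ Q, x0 ∈ P → y0 ∈ P → False := by
    intro P Q hPQ hd hP z hz hx hy
    have h3 : P = W i := by
      refine hN.min i P ?_ hP (tu P hx) (tv P hy)
      rw [← hPQ]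
      exact Set.subset_union_left
    have h4 : z ∈ P := by
      rw [h3, ← hPQ]
      exact Or.inr hz
    exact Set.disjoint_left.1 hd h4 hz
  refine ⟨?_, ?_, ?_⟩
  · obtain ⟨P, Q, hPQ, hd, hx, hy, hP, hQ, ht⟩ := hC x0 hx0 y0 hy0 hne
    exact ⟨P, Q, hPQ, hd, hP, hQ, ht, tu P hx, tv Q hy⟩
  · intro x hx
    by_cases hxx : x = x0
    · rw [hxx]
      obtain ⟨P, X, hPX, hd, hy, hx', hP, hX, ht⟩ := hC y0 hy0 x0 hx0 hne.symm
      exact ⟨P, X, hPX, hd, hx', hP, hX, ht, Or.inr ⟨tv P hy, tu X hx'⟩⟩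
    · obtain ⟨P, X, hPX, hd, h0, hx', hP, hX, ht⟩ := hC x0 hx0 x hx (Ne.symm hxx)
      refine ⟨P, X, hPX, hd, hx', hP, hX, ht, Or.inl ⟨tu P h0, tv X ?_⟩⟩
      have h3 : y0 ∈ P ∪ X := by
        rw [hPX]
        exact hy0
      rcases h3 with h3 | h3
      · exact (key P X hPX hd hP x hx' h0 h3).elim
      · exact h3
  · intro x hx y hy hxy
    obtain ⟨X, Y, hXY, hd, hx', hy', hX, hY, ht⟩ := hC x hx y hy hxy
    refine ⟨X, Y, hXY, hd, hx', hy', hX, hY, ht, ?_⟩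
    have h3 : x0 ∈ X ∪ Y := by
      rw [hXY]
      exact hx0
    have h4 : y0 ∈ X ∪ Y := by
      rw [hXY]
      exact hy0
    have hYX : Y ∪ X = W i := by
      rw [Set.union_comm]
      exact hXY
    rcases h3 with h3 | h3
    · rcases h4 with h4 | h4
      · exact (key X Y hXY hd hX y hy' h3 h4).elim
      · exact Or.inl ⟨tu X h3, tv Y h4⟩
    · rcases h4 with h4 | h4
      · exact Or.inr ⟨tv X h4, tu Y h3⟩
      · exact (key Y X hYX hd.symm hY x hx' h3 h4).elim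

end Pool.Agent.Helper16.AJ
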